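import Mathlib

/-!
Patterns of primes of a given colour on a finite set of shifts.
-/

namespace Pool.Agent.H21.TX

open Finset

/-- The set of `a ∈ H` such that `N + a` is a prime of colour `i`. -/
def pat {r : ℕ} (c : ℕ → Fin r) (i : Fin r) (H : Finset ℕ) (N : ℕ) : Finset ℕ :=
  H.filter (fun a => (N + a).Prime ∧ c (N + a) = i)

theorem pat_subset {r : ℕ} (c : ℕ → Fin r) (i : Fin r) (H : Finset ℕ) (N : ℕ) :
    pat c i H N ⊆ H := Finset.filter_subset _ _

/-- `B` is shattered by the primes of colour `i`. -/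
def Shat {r : ℕ} (c : ℕ → Fin r) (i : Fin r) (B : Finset ℕ) : Prop :=
  ∀ F ⊆ B, {N : ℕ | ∀ a ∈ B, ((N + a).Prime ∧ c (N + a) = i) ↔ a ∈ F}.Infinite

/-- The parameter `θ` of the sieve. -/
noncomputable def thet (k : ℕ) : ℝ :=
  ((Nat.log 2 k : ℝ) + 2) ^ 2 / (10 * k * ((Nat.log 2 k : ℝ) + 1))

end Pool.Agent.H21.TX
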