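import Pool.Agent.H21.TX.Asm

/-!
[H21 TX FIN]  The numerical constants.

Proof.  Let `C = 2^(10^12 r)` (for `r = 0` there is no colouring: `c 0 : Fin 0`), more precisely use only:
`C ≥ 2^(10^12 r)` and `C ≥ 10^40 r^2` (e.g. `C = 2^(10^12 r) + 10^40 r^2`; never let Lean evaluate the
power; `norm_num` must not see it).  Let `k = |H| ≥ (C m)^{2m}`, `ℓ = Nat.log 2 k`,
`Y = k θ = (ℓ+2)^2/(10(ℓ+1)) ∈ [(ℓ+1)/10, (ℓ+4)/10]`, `x1 = 64*10^23*Y`.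
* `2^(2*10^12 r m) ≤ C^(2m) ≤ k`, so `ℓ ≥ 2*10^12 r m`, hence `m ≤ (ℓ+1)/(2*10^11 r) ≤ x0/r`.
* `8 x1 ≤ 10^26 ℓ ≤ 2^{ℓ/2} ≤ √k` for `ℓ ≥ 10^12` (`n^2 ≤ 2^n`-type bounds; e.g. `ℓ ≤ 2^{ℓ/4}` and
`10^26 ≤ 2^{90} ≤ 2^{ℓ/4}`); in particular `4 x1 ≤ k`.
* `n = ⌊k m/x1⌋₊`: `x1 n ≤ k m`; `n ≥ k m/x1 - 1 ≥ k m/(2 x1) ≥ 3m` (as `k ≥ 6 x1`);
`2 n ≤ 2 k m/x1 ≤ k` as `x1 ≥ 2m`.
* `4m/n ≤ 8 x1/k ≤ 1/√k ≤ 1/(C m)^m`.  And `C(k,m) ≤ (3k/m)^m` (`choose_le` in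
`Pool/Agent/H21/MT/T3.lean`; copy it), so the first term of `asm` is
`≥ (1/(64*10^23 r)) C(k,m) (1/(384*10^10 r m))^m`.  Since `C ≥ 10^40 r^2`,
`(C m)^m ≥ 2 * (64*10^23 r) * (384*10^10 r m)^m` (for `m ≥ 1`:
`(C/(384*10^10 r))^m ≥ C/(384*10^10 r) ≥ 128*10^23 r`).  So the first term is `≥ 2 C(k,m)/(C m)^m` and the
second one `≤ C(k,m)/(C m)^m`.
-/

namespace Pool.Agent.H21.TX

open Finset

private theorem fin_choose_le (k m : ℕ) (hm : 1 ≤ m) :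
    (k.choose m : ℝ) ≤ (3 * (k : ℝ) / m) ^ m := by
  have hm0 : (0 : ℝ) < (m : ℝ) := by exact_mod_cast hm
  have h1 : (k.choose m : ℝ) ≤ (k : ℝ) ^ m / (m.factorial : ℝ) := Nat.choose_le_pow_div m k
  refine h1.trans ?_
  have h2 : (m : ℝ) ^ m / (m.factorial : ℝ) ≤ Real.exp m := Real.pow_div_factorial_le_exp (m : ℝ) hm0.le m
  have h3 : Real.exp (m : ℝ) ≤ 3 ^ m := by
    have : Real.exp (m : ℝ) = Real.exp 1 ^ m := by
      rw [← Real.exp_nat_mul, mul_one]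
    rw [this]
    exact pow_le_pow_left₀ (Real.exp_pos _).le (by linarith [Real.exp_one_lt_d9]) m
  have h4 : (m : ℝ) ^ m ≤ 3 ^ m * (m.factorial : ℝ) := by
    have hf : (0 : ℝ) < (m.factorial : ℝ) := by exact_mod_cast Nat.factorial_pos m
    rw [div_le_iff₀ hf] at h2
    exact h2.trans (mul_le_mul_of_nonneg_right h3 hf.le)
  have hf : (0 : ℝ) < (m.factorial : ℝ) := by exact_mod_cast Nat.factorial_pos m
  rw [div_pow, div_le_div_iff₀ hf (by positivity), mul_pow]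
  calc (k : ℝ) ^ m * (m : ℝ) ^ m ≤ (k : ℝ) ^ m * (3 ^ m * (m.factorial : ℝ)) :=
        mul_le_mul_of_nonneg_left h4 (by positivity)
    _ = 3 ^ m * (k : ℝ) ^ m * (m.factorial : ℝ) := by ring

private theorem fin_two_pow (l : ℕ) (hl : 2000 ≤ l) : (10 ^ 26 * (l : ℝ)) ^ 2 ≤ 2 ^ l := by
  obtain ⟨j, i, hi, rfl⟩ : ∃ j i, i < 8 ∧ l = 8 * j + i :=
    ⟨l / 8, l % 8, Nat.mod_lt _ (by norm_num), (Nat.div_add_mod l 8).symm⟩
  have hj : 200 ≤ j := by omega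
  have h1 : 8 * j + i ≤ 8 * 2 ^ j := by
    have : j < 2 ^ j := Nat.lt_two_pow_self
    omega
  have h2 : ((8 * j + i : ℕ) : ℝ) ≤ 8 * 2 ^ j := by exact_mod_cast h1
  have h3 : ((10 : ℝ) ^ 26) ^ 2 * 64 ≤ 2 ^ 180 := by norm_num
  have h4 : (2 : ℝ) ^ 180 ≤ 2 ^ j := pow_le_pow_right₀ (by norm_num) (by omega)
  have h5 : (0 : ℝ) ≤ ((8 * j + i : ℕ) : ℝ) := by positivity
  calc (10 ^ 26 * ((8 * j + i : ℕ) : ℝ)) ^ 2 = ((10 : ℝ) ^ 26) ^ 2 * ((8 * j + i : ℕ) : ℝ) ^ 2 := by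
        rw [mul_pow]
    _ ≤ ((10 : ℝ) ^ 26) ^ 2 * (8 * 2 ^ j) ^ 2 := by gcongr
    _ = (((10 : ℝ) ^ 26) ^ 2 * 64) * (2 ^ j * 2 ^ j) := by ring
    _ ≤ 2 ^ j * (2 ^ j * 2 ^ j) := by
        apply mul_le_mul_of_nonneg_right (h3.trans h4) (by positivity)
    _ = 2 ^ (3 * j) := by ring
    _ ≤ 2 ^ (8 * j + i) := pow_le_pow_right₀ (by norm_num) (by omega)

/-- the numerical part -/
private theorem fin_num {r m k l : ℕ} {C Y : ℝ} (hr : 1 ≤ r) (hm : 1 ≤ m)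
    (hl : 2 * 10 ^ 12 * r * m ≤ l) (hlk : 2 ^ l ≤ k) (hY1 : ((l : ℝ) + 1) / 10 ≤ Y)
    (hY2 : Y ≤ ((l : ℝ) + 4) / 10) (hC : 10 ^ 40 * (r : ℝ) ^ 2 ≤ C)
    (hk : (C * m) ^ (2 * m) ≤ (k : ℝ)) :
    (m : ℝ) ≤ (1 / 10 ^ 10) / 2 * Y / r ∧ 4 * (64 * 10 ^ 23 * Y) ≤ (k : ℝ) ∧
    ∃ n : ℕ, 64 * 10 ^ 23 * Y * (n : ℝ) ≤ (k : ℝ) * m ∧ 3 * m ≤ n ∧ 2 * n ≤ k ∧
      (k.choose m : ℝ) / (C * m) ^ m ≤ 1 / (64 * 10 ^ 23 * (r : ℝ)) *
        ((k : ℝ) / (128 * 10 ^ 10 * r * (m : ℝ) ^ 2)) ^ m -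
        (k.choose m : ℝ) * (4 * m / n) := by
  have hr' : (1 : ℝ) ≤ r := by exact_mod_cast hr
  have hm' : (1 : ℝ) ≤ m := by exact_mod_cast hm
  have hl' : 2 * 10 ^ 12 * (r : ℝ) * m ≤ l := by exact_mod_cast hl
  have hrm : (1 : ℝ) ≤ r * m := by nlinarith
  have hlk' : (2 : ℝ) ^ l ≤ k := by exact_mod_cast hlk
  have hlbig : 2000 ≤ l := by
    have h1 : 1 ≤ r * m := Nat.one_le_iff_ne_zero.2 (by positivity)
    nlinarith
  have hlbig' : (2000 : ℝ) ≤ l := by exact_mod_cast hlbig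
  have hYr : 2 * 10 ^ 11 * (r : ℝ) * m ≤ Y := by linarith
  have hY0 : 0 < Y := by nlinarith
  obtain ⟨x, hx⟩ : ∃ x : ℝ, x = 64 * 10 ^ 23 * Y := ⟨_, rfl⟩
  have hx0 : 0 < x := by
    rw [hx]
    positivity
  have hk0 : (0 : ℝ) < k := lt_of_lt_of_le (by positivity) hlk'
  obtain ⟨s, hs⟩ : ∃ s : ℝ, s = Real.sqrt k := ⟨_, rfl⟩
  have hs0 : 0 < s := by
    rw [hs]
    exact Real.sqrt_pos.2 hk0
  have hs2 : s * s = k := by
    rw [hs]
    exact Real.mul_self_sqrt hk0.le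
  have hs1 : 1 ≤ s := by
    rw [hs, Real.one_le_sqrt]
    exact le_trans (one_le_pow₀ (by norm_num)) hlk'
  have h8x : 8 * x ≤ s := by
    have h1 : 8 * x ≤ 10 ^ 26 * l := by
      rw [hx]
      linarith
    refine h1.trans ?_
    rw [hs]
    apply Real.le_sqrt_of_sq_le
    exact (fin_two_pow l hlbig).trans hlk'
  have hsk : s ≤ k := by nlinarith
  have h2m : 2 * (m : ℝ) ≤ x := by
    rw [hx]
    nlinarith
  have hC0 : 0 < C := lt_of_lt_of_le (by positivity) hC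
  obtain ⟨R, hR⟩ : ∃ R : ℝ, R = (C * m) ^ m := ⟨_, rfl⟩
  have hR0 : 0 < R := by
    rw [hR]
    positivity
  have hRs : R ≤ s := by
    rw [hs]
    apply Real.le_sqrt_of_sq_le
    rw [hR, ← pow_mul, mul_comm m 2]
    exact hk
  refine ⟨?_, ?_, ⌊(k : ℝ) * m / x⌋₊, ?_, ?_, ?_, ?_⟩
  · rw [le_div_iff₀ (by linarith)]
    nlinarith
  · rw [← hx]
    linarith
  · have h1 : (⌊(k : ℝ) * m / x⌋₊ : ℝ) ≤ (k : ℝ) * m / x := Nat.floor_le (by positivity)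
    rw [le_div_iff₀ hx0] at h1
    rw [← hx]
    linarith
  · apply Nat.le_floor
    push_cast
    rw [le_div_iff₀ hx0]
    nlinarith
  · have h1 : (⌊(k : ℝ) * m / x⌋₊ : ℝ) ≤ (k : ℝ) * m / x := Nat.floor_le (by positivity)
    have h2 : 2 * ((k : ℝ) * m / x) ≤ k := by
      rw [← mul_div_assoc, div_le_iff₀ hx0]
      nlinarith
    have h3 : 2 * (⌊(k : ℝ) * m / x⌋₊ : ℝ) ≤ k := by linarith
    exact_mod_cast h3
  · have hfl : (k : ℝ) * m / (2 * x) ≤ ⌊(k : ℝ) * m / x⌋₊ := by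
      have h1 := Nat.lt_floor_add_one ((k : ℝ) * m / x)
      have h2 : 2 ≤ (k : ℝ) * m / x := by
        rw [le_div_iff₀ hx0]
        nlinarith
      have h3 : (k : ℝ) * m / (2 * x) = ((k : ℝ) * m / x) / 2 := by
        field_simp
      rw [h3]
      linarith
    have hn0 : (0 : ℝ) < ⌊(k : ℝ) * m / x⌋₊ := lt_of_lt_of_le (by positivity) hfl
    have h4 : 4 * (m : ℝ) / ⌊(k : ℝ) * m / x⌋₊ ≤ 1 / R := by
      have h5 : 4 * (m : ℝ) / ⌊(k : ℝ) * m / x⌋₊ ≤ 4 * m / ((k : ℝ) * m / (2 * x)) :=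
        div_le_div_of_nonneg_left (by positivity) (by positivity) hfl
      have h6 : 4 * (m : ℝ) / ((k : ℝ) * m / (2 * x)) = 8 * x / k := by
        field_simp
        ring
      have h7 : 8 * x / k ≤ 1 / R := by
        rw [div_le_div_iff₀ hk0 hR0, one_mul, ← hs2]
        exact mul_le_mul h8x hRs hR0.le hs0.le
      linarith
    have hch := fin_choose_le k m hm
    have hch0 : (0 : ℝ) ≤ (k.choose m : ℝ) := by positivity
    have h5 : (k.choose m : ℝ) * (4 * m / ⌊(k : ℝ) * m / x⌋₊) ≤ (k.choose m : ℝ) * (1 / R) :=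
      mul_le_mul_of_nonneg_left h4 hch0
    have h6 : 2 * ((k.choose m : ℝ) * (1 / R)) ≤ 1 / (64 * 10 ^ 23 * (r : ℝ)) *
        ((k : ℝ) / (128 * 10 ^ 10 * r * (m : ℝ) ^ 2)) ^ m := by
      obtain ⟨G, hG⟩ : ∃ G : ℝ, G = 384 * 10 ^ 10 * r := ⟨_, rfl⟩
      have hG0 : 0 < G := by
        rw [hG]
        positivity
      have e1 : ((k : ℝ) / (128 * 10 ^ 10 * r * (m : ℝ) ^ 2)) ^ m =
          (3 * (k : ℝ) / m) ^ m * (1 / (G * m)) ^ m := by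
        rw [← mul_pow, hG]
        congr 1
        field_simp
        ring
      have e2 : 2 * (64 * 10 ^ 23 * (r : ℝ)) ≤ (C / G) ^ m := by
        have i1 : 2 * (64 * 10 ^ 23 * (r : ℝ)) ≤ C / G := by
          rw [le_div_iff₀ hG0, hG]
          refine le_trans ?_ hC
          have : (0 : ℝ) ≤ (r : ℝ) ^ 2 := by positivity
          nlinarith
        have i2 : 1 ≤ C / G := by linarith
        exact i1.trans (le_self_pow₀ i2 (by omega))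
      have e3 : 1 / R = (1 / (G * m)) ^ m * (1 / (C / G) ^ m) := by
        have i3 : C * m = (G * m) * (C / G) := by
          field_simp
        rw [hR, i3, mul_pow, one_div_pow, one_div_mul_one_div]
      have e4 : 1 / (C / G) ^ m ≤ 1 / (2 * (64 * 10 ^ 23 * (r : ℝ))) :=
        one_div_le_one_div_of_le (by positivity) e2
      have e5 : 2 * (1 / R) ≤ (1 / (G * m)) ^ m * (1 / (64 * 10 ^ 23 * (r : ℝ))) := by
        rw [e3]
        calc 2 * ((1 / (G * m)) ^ m * (1 / (C / G) ^ m))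
            ≤ 2 * ((1 / (G * m)) ^ m * (1 / (2 * (64 * 10 ^ 23 * (r : ℝ))))) :=
              mul_le_mul_of_nonneg_left (mul_le_mul_of_nonneg_left e4 (by positivity))
                (by norm_num)
          _ = _ := by
            generalize 64 * 10 ^ 23 * (r : ℝ) = N
            ring
      rw [e1]
      calc 2 * ((k.choose m : ℝ) * (1 / R)) = (k.choose m : ℝ) * (2 * (1 / R)) := by ring
        _ ≤ (3 * (k : ℝ) / m) ^ m * ((1 / (G * m)) ^ m * (1 / (64 * 10 ^ 23 * (r : ℝ)))) :=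
          mul_le_mul hch e5 (by positivity) (by positivity)
        _ = _ := by ring
    rw [← hR, div_eq_mul_one_div]
    linarith

open Classical in
/-- For every number `r` of colours there is `C` such that for every admissible `H` with
`|H| ≥ (C m)^(2m)` at least `C(|H|, m)/(C m)^m` of the `m`-subsets of `H` are shattered by the primes
of one colour. -/
theorem shatter_density (r : ℕ) : ∃ C : ℝ, 0 < C ∧ ∀ (H : Finset ℕ),
    (∀ p : ℕ, p.Prime → ∃ a : ℕ, ∀ h ∈ H, ¬ p ∣ a + h) → ∀ (c : ℕ → Fin r) (m : ℕ), 1 ≤ m →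
    (C * m) ^ (2 * m) ≤ (H.card : ℝ) →
    ∃ i : Fin r, (H.card.choose m : ℝ) / (C * m) ^ m ≤
      (((powersetCard m H).filter (fun B => Shat c i B)).card : ℝ) := by
  obtain ⟨D, hD⟩ : ∃ D : ℕ, D = 10 ^ 12 := ⟨_, rfl⟩
  refine ⟨2 ^ (D * r) + 10 ^ 40 * (r : ℝ) ^ 2, by positivity, ?_⟩
  intro H hadm c m hm hk
  have hr : 1 ≤ r := by
    have := (c 0).2
    omega
  have hm' : (1 : ℝ) ≤ m := by exact_mod_cast hm
  obtain ⟨C, hC⟩ : ∃ C : ℝ, C = 2 ^ (D * r) + 10 ^ 40 * (r : ℝ) ^ 2 := ⟨_, rfl⟩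
  rw [← hC] at hk ⊢
  have hC1 : (2 : ℝ) ^ (D * r) ≤ C := by
    rw [hC]
    have : (0 : ℝ) ≤ 10 ^ 40 * (r : ℝ) ^ 2 := by positivity
    linarith
  have hC2 : 10 ^ 40 * (r : ℝ) ^ 2 ≤ C := by
    rw [hC]
    have : (0 : ℝ) ≤ 2 ^ (D * r) := by positivity
    linarith
  have hC0 : 0 < C := lt_of_lt_of_le (by positivity) hC1
  have hpow : (2 : ℝ) ^ (D * r * (2 * m)) ≤ H.card := by
    refine le_trans ?_ hk
    rw [pow_mul]
    apply pow_le_pow_left₀ (by positivity)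
    calc (2 : ℝ) ^ (D * r) ≤ C * 1 := by rw [mul_one]; exact hC1
      _ ≤ C * m := mul_le_mul_of_nonneg_left hm' hC0.le
  have hpow' : 2 ^ (D * r * (2 * m)) ≤ H.card := by exact_mod_cast hpow
  have hl1 : D * r * (2 * m) ≤ Nat.log 2 H.card := Nat.le_log_of_pow_le (by norm_num) hpow'
  have hl2 : 2 * 10 ^ 12 * r * m ≤ Nat.log 2 H.card := by
    rw [← hD]
    calc 2 * D * r * m = D * r * (2 * m) := by ring
      _ ≤ _ := hl1
  have hk0 : H.card ≠ 0 := by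
    have : 0 < 2 ^ (D * r * (2 * m)) := by positivity
    omega
  have hlk : 2 ^ Nat.log 2 H.card ≤ H.card := Nat.pow_log_le_self 2 hk0
  have hk0' : (0 : ℝ) < H.card := by exact_mod_cast Nat.pos_of_ne_zero hk0
  have hY : (H.card : ℝ) * thet H.card =
      ((Nat.log 2 H.card : ℝ) + 2) ^ 2 / (10 * ((Nat.log 2 H.card : ℝ) + 1)) := by
    unfold thet
    field_simp
  have hl0 : (0 : ℝ) ≤ (Nat.log 2 H.card : ℝ) := by positivity
  have hY1 : ((Nat.log 2 H.card : ℝ) + 1) / 10 ≤ (H.card : ℝ) * thet H.card := by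
    rw [hY, div_le_div_iff₀ (by norm_num) (by positivity)]
    nlinarith
  have hY2 : (H.card : ℝ) * thet H.card ≤ ((Nat.log 2 H.card : ℝ) + 4) / 10 := by
    rw [hY, div_le_div_iff₀ (by positivity) (by norm_num)]
    nlinarith
  obtain ⟨a1, a2, n, a3, a4, a5, a6⟩ := fin_num hr hm hl2 hlk hY1 hY2 hC2 hk
  have hlog : 20 ≤ Nat.log 2 H.card := by
    have h1 : 1 ≤ r * m := Nat.one_le_iff_ne_zero.2 (by positivity)
    nlinarith
  obtain ⟨i, hi⟩ := asm H hadm r c m n hm hlog a1 a2 a3 a4 a5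
  exact ⟨i, a6.trans hi⟩

end Pool.Agent.H21.TX
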