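import Mathlib

/-!
[H21 TX AVER]  Averaging over the `n`-subsets of `H`.

Proof.  For `H' ∈ powersetCard n H` and `F ∈ powersetCard m H'` put
`M H' F = ∑ N ∈ T.filter (fun N => W N ∩ H' = F), μ N`.  If no `N ∈ T` has `W N ∩ H' = F` then
`M H' F = 0`; in any case `W N ∩ H' = F` implies `F ⊆ W N`, so `M H' F ≤ U` by `hup`
(`F ⊆ H`, `F.card = m`).  Hence `(1/U) * M H' F ≤ 1` if such `N` exists and `= 0` otherwise, so
`U * #((powersetCard m H').filter ...) ≥ ∑_F M H' F = ∑ N ∈ T, μ N * [|W N ∩ H'| = m]`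
(`W N ∩ H' ⊆ H'` lies in `powersetCard m H'` iff its cardinality is `m`).  Sum over `H'`:
`U * RHS ≥ ∑ N ∈ T, μ N * #{H' ∈ powersetCard n H | |W N ∩ H'| = m}`.
COUNT: for `W ⊆ H`, `#{H' ∈ powersetCard n H | |W ∩ H'| = m} = |W|.choose m * (|H| - |W|).choose (n-m)`
for `m ≤ n`: bijection `H' ↦ (W ∩ H', H' \ W)` with inverse `(F, G) ↦ F ∪ G` onto
`powersetCard m W ×ˢ powersetCard (n-m) (H \ W)`.
For `N ∈ T` with `P N` the count is `≥ h` by `hh`; the other `N` contribute `≥ 0`.  So
`U * RHS ≥ h * ∑ N ∈ T.filter P, μ N ≥ h * δ` (`h ≥ 0`).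
-/

namespace Pool.Agent.H21.TX

open Finset

open Classical in
private theorem averCount (H W : Finset ℕ) (hW : W ⊆ H) (m n : ℕ) (hmn : m ≤ n) :
    ((powersetCard n H).filter (fun H' => (W ∩ H').card = m)).card
      = W.card.choose m * (H.card - W.card).choose (n - m) := by
  have h1 : W.card.choose m * (H.card - W.card).choose (n - m)
      = (powersetCard m W ×ˢ powersetCard (n - m) (H \ W)).card := by
    rw [card_product, card_powersetCard, card_powersetCard, card_sdiff_of_subset hW]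
  rw [h1]
  refine Finset.card_nbij' (fun H' => (W ∩ H', H' \ W)) (fun p => p.1 ∪ p.2) ?_ ?_ ?_ ?_
  · intro H' hH'
    simp only [coe_filter, mem_powersetCard, Set.mem_ofPred_eq] at hH'
    obtain ⟨⟨hs, hc⟩, hm⟩ := hH'
    simp only [coe_product, Set.mem_prod, mem_coe, mem_powersetCard]
    refine ⟨⟨inter_subset_left, hm⟩, sdiff_subset_sdiff hs (le_refl _), ?_⟩
    have h2 := card_sdiff_add_card_inter H' W
    rw [inter_comm] at h2
    omega
  · intro p hp
    simp only [coe_product, Set.mem_prod, mem_coe, mem_powersetCard] at hp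
    obtain ⟨⟨h1, h2⟩, h3, h4⟩ := hp
    have hd : Disjoint p.1 p.2 := by
      refine disjoint_of_subset_left h1 (disjoint_of_subset_right h3 disjoint_sdiff)
    simp only [coe_filter, mem_powersetCard, Set.mem_ofPred_eq]
    refine ⟨⟨union_subset (h1.trans hW) (h3.trans sdiff_subset), ?_⟩, ?_⟩
    · rw [card_union_of_disjoint hd]
      omega
    · rw [inter_union_distrib_left, inter_eq_right.mpr h1]
      have h5 : W ∩ p.2 = ∅ := by
        apply disjoint_iff_inter_eq_empty.mp
        exact disjoint_of_subset_right h3 disjoint_sdiff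
      rw [h5, union_empty, h2]
  · intro H' hH'
    show (W ∩ H') ∪ (H' \ W) = H'
    rw [inter_comm, union_comm, sdiff_union_inter]
  · intro p hp
    simp only [coe_product, Set.mem_prod, mem_coe, mem_powersetCard] at hp
    obtain ⟨⟨h1, h2⟩, h3, h4⟩ := hp
    have h5 : W ∩ p.2 = ∅ := by
      apply disjoint_iff_inter_eq_empty.mp
      exact disjoint_of_subset_right h3 disjoint_sdiff
    have hd : Disjoint p.2 W := disjoint_of_subset_left h3 sdiff_disjoint
    apply Prod.ext
    · show W ∩ (p.1 ∪ p.2) = p.1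
      rw [inter_union_distrib_left, inter_eq_right.mpr h1, h5, union_empty]
    · show (p.1 ∪ p.2) \ W = p.2
      rw [union_sdiff_distrib, sdiff_eq_empty_iff_subset.mpr h1, empty_union,
        sdiff_eq_self_of_disjoint hd]

open Classical in
theorem aver (H T : Finset ℕ) (μ : ℕ → ℝ) (hμ : ∀ N, 0 ≤ μ N) (W : ℕ → Finset ℕ)
    (hW : ∀ N, W N ⊆ H) (m n : ℕ) (hmn : m ≤ n) (δ U h : ℝ) (hU : 0 < U) (h0 : 0 ≤ h)
    (P : ℕ → Prop) (hδ : δ ≤ ∑ N ∈ T.filter P, μ N)
    (hh : ∀ N ∈ T, P N →
      h ≤ ((W N).card.choose m : ℝ) * ((H.card - (W N).card).choose (n - m) : ℝ))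
    (hup : ∀ F ⊆ H, F.card = m → ∑ N ∈ T.filter (fun N => F ⊆ W N), μ N ≤ U) :
    δ * h / U ≤ ∑ H' ∈ powersetCard n H,
      (((powersetCard m H').filter (fun F => ∃ N ∈ T, W N ∩ H' = F)).card : ℝ) := by
  rw [div_le_iff₀ hU]
  -- step 1: for each `H'`
  have s1 : ∀ H' ∈ powersetCard n H,
      ∑ N ∈ T.filter (fun N => (W N ∩ H').card = m), μ N
        ≤ (((powersetCard m H').filter (fun F => ∃ N ∈ T, W N ∩ H' = F)).card : ℝ) * U := by
    intro H' hH'
    have hm : ∀ N ∈ T.filter (fun N => (W N ∩ H').card = m),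
        W N ∩ H' ∈ (powersetCard m H').filter (fun F => ∃ N ∈ T, W N ∩ H' = F) := by
      intro N hN
      rw [mem_filter] at hN
      rw [mem_filter, mem_powersetCard]
      exact ⟨⟨inter_subset_right, hN.2⟩, N, hN.1, rfl⟩
    rw [← sum_fiberwise_of_maps_to hm, ← nsmul_eq_mul]
    refine sum_le_card_nsmul _ _ _ ?_
    intro F hF
    rw [mem_filter, mem_powersetCard] at hF
    refine le_trans ?_ (hup F (hF.1.1.trans (mem_powersetCard.mp hH').1) hF.1.2)
    refine sum_le_sum_of_subset_of_nonneg ?_ (fun N _ _ => hμ N)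
    intro N hN
    rw [mem_filter, mem_filter] at hN
    rw [mem_filter]
    refine ⟨hN.1.1, ?_⟩
    rw [← hN.2]
    exact inter_subset_left
  have s2 : ∑ H' ∈ powersetCard n H, ∑ N ∈ T.filter (fun N => (W N ∩ H').card = m), μ N
      ≤ (∑ H' ∈ powersetCard n H,
      (((powersetCard m H').filter (fun F => ∃ N ∈ T, W N ∩ H' = F)).card : ℝ)) * U := by
    rw [sum_mul]
    exact sum_le_sum s1
  refine le_trans ?_ s2
  have s3 : ∑ H' ∈ powersetCard n H, ∑ N ∈ T.filter (fun N => (W N ∩ H').card = m), μ N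
      = ∑ N ∈ T, (((W N).card.choose m : ℝ) * ((H.card - (W N).card).choose (n - m) : ℝ)) * μ N := by
    simp_rw [sum_filter]
    rw [sum_comm]
    refine sum_congr rfl fun N _ => ?_
    rw [← sum_filter, sum_const, averCount H (W N) (hW N) m n hmn, nsmul_eq_mul]
    push_cast
    ring
  rw [s3]
  calc δ * h ≤ (∑ N ∈ T.filter P, μ N) * h := mul_le_mul_of_nonneg_right hδ h0
    _ = ∑ N ∈ T.filter P, h * μ N := by
        rw [sum_mul]
        exact sum_congr rfl fun N _ => mul_comm _ _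
    _ ≤ ∑ N ∈ T.filter P,
        (((W N).card.choose m : ℝ) * ((H.card - (W N).card).choose (n - m) : ℝ)) * μ N := by
        refine sum_le_sum fun N hN => ?_
        rw [mem_filter] at hN
        exact mul_le_mul_of_nonneg_right (hh N hN.1 hN.2) (hμ N)
    _ ≤ _ := by
        refine sum_le_sum_of_subset_of_nonneg (filter_subset _ _) ?_
        intro N _ _
        have := hμ N
        positivity

end Pool.Agent.H21.TX
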