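import Mathlib

/-!
[H21 TX HYP]  A lower bound for a quotient of binomial coefficients.

Proof.  `(k-m).choose s / (k-x).choose s = ∏_{j < s} (k-m-j)/(k-x-j)`, `s = n - m`.  Every factor is
`1 + (x-m)/(k-x-j) ≤ 1 + 4x/k ≤ exp(4x/k)` (`4(k-x-j) ≥ k`).  So the product
is `≤ exp(4x/k)^s ≤ exp(4 x n/k) ≤ exp(4m) ≤ 64^m` (`x n ≤ k m`, `e < 2.7182818286`).
-/

namespace Pool.Agent.H21.TX

theorem hyp (k n m x : ℕ) (hm : 1 ≤ m) (hmx : m ≤ x) (hmn : m ≤ n) (hxn : x * n ≤ k * m)
    (h1 : 2 * n ≤ k) (h2 : 4 * x ≤ k) :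
    (k - m).choose (n - m) ≤ 64 ^ m * (k - x).choose (n - m) := by
  have hk : 0 < k := by omega
  have hkR : (0 : ℝ) < k := by exact_mod_cast hk
  set c : ℝ := Real.exp (4 * x / k) with hc
  have key : ∀ j ∈ Finset.range (n - m),
      ((k - m - j : ℕ) : ℝ) ≤ c * ((k - x - j : ℕ) : ℝ) := by
    intro j hj
    rw [Finset.mem_range] at hj
    have e1 : ((k - m - j : ℕ) : ℝ) = (k : ℝ) - m - j := by
      rw [Nat.cast_sub (by omega), Nat.cast_sub (by omega)]
    have e2 : ((k - x - j : ℕ) : ℝ) = (k : ℝ) - x - j := by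
      rw [Nat.cast_sub (by omega), Nat.cast_sub (by omega)]
    rw [e1, e2]
    have hb : (k : ℝ) ≤ 4 * ((k : ℝ) - x - j) := by
      have hn : k + 4 * x + 4 * j ≤ 4 * k := by omega
      have hn' : (k : ℝ) + 4 * x + 4 * j ≤ 4 * k := by exact_mod_cast hn
      linarith
    have hpos : (0 : ℝ) ≤ (k : ℝ) - x - j := by linarith
    have hexp : 1 + 4 * (x : ℝ) / k ≤ c := by
      have := Real.add_one_le_exp (4 * (x : ℝ) / k)
      rw [hc]
      linarith
    have h3 : (k : ℝ) - m - j ≤ (1 + 4 * (x : ℝ) / k) * ((k : ℝ) - x - j) := by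
      have h4 : (x : ℝ) ≤ 4 * (x : ℝ) / k * ((k : ℝ) - x - j) := by
        have h5 : 4 * (x : ℝ) / k * ((k : ℝ) - x - j) = (x : ℝ) * (4 * ((k : ℝ) - x - j) / k) := by
          ring
        rw [h5]
        have h6 : (1 : ℝ) ≤ 4 * ((k : ℝ) - x - j) / k := by
          rw [le_div_iff₀ hkR]
          linarith
        have hx0 : (0 : ℝ) ≤ x := Nat.cast_nonneg x
        nlinarith
      have hm0 : (0 : ℝ) ≤ m := Nat.cast_nonneg m
      nlinarith
    exact h3.trans (mul_le_mul_of_nonneg_right hexp hpos)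
  have hprod : ((∏ j ∈ Finset.range (n - m), (k - m - j) : ℕ) : ℝ) ≤
      c ^ (n - m) * ((∏ j ∈ Finset.range (n - m), (k - x - j) : ℕ) : ℝ) := by
    rw [Nat.cast_prod, Nat.cast_prod]
    have h := Finset.prod_le_prod (s := Finset.range (n - m))
      (f := fun j => ((k - m - j : ℕ) : ℝ)) (g := fun j => c * ((k - x - j : ℕ) : ℝ))
      (fun j _ => Nat.cast_nonneg _) key
    rw [Finset.prod_mul_distrib, Finset.prod_const, Finset.card_range] at h
    exact h
  have hcp : c ^ (n - m) ≤ (64 : ℝ) ^ m := by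
    have h1' : c ^ (n - m) = Real.exp (((n - m : ℕ) : ℝ) * (4 * x / k)) := by
      rw [hc, ← Real.exp_nat_mul]
    have h2' : ((n - m : ℕ) : ℝ) * (4 * x / k) ≤ ((4 * m : ℕ) : ℝ) := by
      have h3 : ((n - m : ℕ) : ℝ) * (4 * x / k) = (((n - m : ℕ) : ℝ) * (4 * x)) / k := by ring
      rw [h3, div_le_iff₀ hkR]
      have h4 : (n - m) * (4 * x) ≤ 4 * m * k := by
        calc (n - m) * (4 * x) ≤ n * (4 * x) := Nat.mul_le_mul_right _ (Nat.sub_le _ _)
          _ = 4 * (x * n) := by ring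
          _ ≤ 4 * (k * m) := Nat.mul_le_mul_left _ hxn
          _ = 4 * m * k := by ring
      exact_mod_cast h4
    have h5 : Real.exp (((4 * m : ℕ) : ℝ)) = (Real.exp 1 ^ 4) ^ m := by
      rw [← pow_mul, ← Real.exp_nat_mul]
      norm_num
    have h6 : Real.exp 1 ^ 4 ≤ 64 := by
      have h7 := Real.exp_one_lt_d9
      have h8 : Real.exp 1 ^ 4 ≤ (2.7182818286 : ℝ) ^ 4 :=
        pow_le_pow_left₀ (Real.exp_pos 1).le h7.le 4
      exact h8.trans (by norm_num)
    calc c ^ (n - m) = Real.exp (((n - m : ℕ) : ℝ) * (4 * x / k)) := h1'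
      _ ≤ Real.exp ((4 * m : ℕ) : ℝ) := Real.exp_le_exp.mpr h2'
      _ = (Real.exp 1 ^ 4) ^ m := h5
      _ ≤ 64 ^ m := pow_le_pow_left₀ (by positivity) h6 m
  have hfin : (((k - m).descFactorial (n - m) : ℕ) : ℝ) ≤
      ((64 ^ m * (k - x).descFactorial (n - m) : ℕ) : ℝ) := by
    rw [Nat.descFactorial_eq_prod_range, Nat.descFactorial_eq_prod_range]
    refine hprod.trans ?_
    push_cast
    exact mul_le_mul_of_nonneg_right hcp (by positivity)
  have hfin' : (k - m).descFactorial (n - m) ≤ 64 ^ m * (k - x).descFactorial (n - m) := by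
    exact_mod_cast hfin
  rw [Nat.descFactorial_eq_factorial_mul_choose, Nat.descFactorial_eq_factorial_mul_choose] at hfin'
  have hf : 0 < (n - m).factorial := Nat.factorial_pos _
  refine Nat.le_of_mul_le_mul_left (?_ : (n - m).factorial * (k - m).choose (n - m) ≤
    (n - m).factorial * (64 ^ m * (k - x).choose (n - m))) hf
  calc (n - m).factorial * (k - m).choose (n - m)
      ≤ 64 ^ m * ((n - m).factorial * (k - x).choose (n - m)) := hfin'
    _ = (n - m).factorial * (64 ^ m * (k - x).choose (n - m)) := by ring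

/-- [H21 TX HYP]  `∑_{j<m} C(n,j) ≤ (4m/n) C(n,m)` for `3m ≤ n`: induction on `m`, with
`C(n,m) (n-m) = C(n,m+1) (m+1)` and `4m + n ≤ 4 (n-m)`. -/
theorem small_sum (n m : ℕ) (h : 3 * m ≤ n) :
    n * ∑ j ∈ Finset.range m, n.choose j ≤ 4 * m * n.choose m := by
  induction m with
  | zero => simp
  | succ i ih =>
    have ih' := ih (by omega)
    rw [Finset.sum_range_succ, mul_add]
    have e := Nat.choose_succ_right_eq n i
    have h1 : 4 * i + n ≤ 4 * (n - i) := by omega
    calc n * ∑ j ∈ Finset.range i, n.choose j + n * n.choose i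
        ≤ 4 * i * n.choose i + n * n.choose i := Nat.add_le_add_right ih' _
      _ = (4 * i + n) * n.choose i := by ring
      _ ≤ 4 * (n - i) * n.choose i := Nat.mul_le_mul_right _ h1
      _ = 4 * (n.choose i * (n - i)) := by ring
      _ = 4 * (n.choose (i + 1) * (i + 1)) := by rw [e]
      _ = 4 * (i + 1) * n.choose (i + 1) := by ring

end Pool.Agent.H21.TX
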