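import Pool.Agent.H21.TX.Defs

/-!
[H21 TX PAJ]  Pajor's inequality and the patterns occurring infinitely often.

Proof of `pajor`.  Mathlib: `Finset.card_le_card_shatterer : #𝒜 ≤ #𝒜.shatterer`.  A set `B` shattered
by `𝒜` (`Finset.Shatters`: for all `F ⊆ B` some `E ∈ 𝒜` has `B ∩ E = F`) satisfies (take `F = B`)
`B ⊆ E` for a member `E`, so `B ⊆ H'` and `|B| ≤ m`.  So the shatterer is contained in the union of the
filter and of the `powersetCard j H'`, `j < m`.

Proof of `nstar`.  There are finitely many triples `(i, H', F)`, `i : Fin r`, `F ⊆ H' ⊆ H`; for those for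
which `{N | pat c i H' N = F}` is finite take `N*` larger than all its elements.

Proof of `shat_of`.  Given `F ⊆ B` take `E ∈ 𝓔` with `E ∩ B = F`; for every `N` with
`pat c i H' N = E` and every `a ∈ B ⊆ H'`: `(N+a).Prime ∧ c (N+a) = i ↔ a ∈ E ↔ a ∈ F`.
-/

namespace Pool.Agent.H21.TX

open Finset

open Classical in
theorem pajor (H' : Finset ℕ) (𝓔 : Finset (Finset ℕ)) (m : ℕ)
    (h : ∀ E ∈ 𝓔, E ⊆ H' ∧ E.card = m) :
    𝓔.card ≤ ((powersetCard m H').filter (fun B => ∀ F ⊆ B, ∃ E ∈ 𝓔, E ∩ B = F)).card +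
      ∑ j ∈ range m, H'.card.choose j := by
  have h1 : 𝓔.card ≤ 𝓔.shatterer.card := card_le_card_shatterer 𝓔
  have h2 : 𝓔.shatterer ⊆
      ((powersetCard m H').filter (fun B => ∀ F ⊆ B, ∃ E ∈ 𝓔, E ∩ B = F)) ∪
        (range m).biUnion (fun j => powersetCard j H') := by
    intro B hB
    rw [mem_shatterer] at hB
    obtain ⟨E, hE, hBE⟩ := hB (Finset.Subset.refl B)
    have hBE' : B ⊆ E := by
      rw [← hBE]
      exact inter_subset_right
    have hBH : B ⊆ H' := hBE'.trans (h E hE).1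
    have hcard : B.card ≤ m := by
      rw [← (h E hE).2]
      exact card_le_card hBE'
    rw [mem_union]
    rcases hcard.lt_or_eq with hlt | heq
    · right
      rw [mem_biUnion]
      exact ⟨B.card, mem_range.2 hlt, mem_powersetCard.2 ⟨hBH, rfl⟩⟩
    · left
      rw [mem_filter, mem_powersetCard]
      refine ⟨⟨hBH, heq⟩, fun F hF => ?_⟩
      obtain ⟨E', hE', hE'F⟩ := hB hF
      exact ⟨E', hE', by rw [inter_comm]; exact hE'F⟩
  refine h1.trans ((card_le_card h2).trans ((card_union_le _ _).trans ?_))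
  refine Nat.add_le_add_left ?_ _
  refine card_biUnion_le.trans ?_
  exact le_of_eq (sum_congr rfl fun j _ => card_powersetCard j H')

theorem nstar {r : ℕ} (c : ℕ → Fin r) (H : Finset ℕ) :
    ∃ N₀ : ℕ, ∀ i : Fin r, ∀ H' ⊆ H, ∀ N, N₀ < N →
      {N' : ℕ | pat c i H' N' = pat c i H' N}.Infinite := by
  classical
  let S : Set ℕ := ⋃ i : Fin r, ⋃ H' ∈ H.powerset, ⋃ F ∈ H.powerset,
    (if {N : ℕ | pat c i H' N = F}.Finite then {N : ℕ | pat c i H' N = F} else ∅)
  have hS : S.Finite := by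
    refine Set.finite_iUnion fun i => ?_
    refine Set.Finite.biUnion (finite_toSet H.powerset) fun H' _ => ?_
    refine Set.Finite.biUnion (finite_toSet H.powerset) fun F _ => ?_
    split_ifs with hf
    · exact hf
    · exact Set.finite_empty
  obtain ⟨N₀, hN₀⟩ := hS.bddAbove
  refine ⟨N₀, fun i H' hH' N hN hfin => ?_⟩
  have hmem : N ∈ S := by
    simp only [S, Set.mem_iUnion]
    refine ⟨i, H', mem_powerset.2 hH', pat c i H' N, mem_powerset.2 ((pat_subset c i H' N).trans hH'), ?_⟩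
    rw [if_pos hfin]
    rfl
  exact absurd (hN₀ hmem) (not_le.2 hN)

theorem shat_of {r : ℕ} (c : ℕ → Fin r) (i : Fin r) (H' B : Finset ℕ) (hB : B ⊆ H')
    (𝓔 : Finset (Finset ℕ)) (h𝓔 : ∀ E ∈ 𝓔, {N : ℕ | pat c i H' N = E}.Infinite)
    (hsh : ∀ F ⊆ B, ∃ E ∈ 𝓔, E ∩ B = F) : Shat c i B := by
  intro F hF
  obtain ⟨E, hE, hEF⟩ := hsh F hF
  refine (h𝓔 E hE).mono fun N hN a ha => ?_
  have h1 : a ∈ pat c i H' N ↔ ((N + a).Prime ∧ c (N + a) = i) := by
    rw [pat, mem_filter]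
    exact ⟨fun h => h.2, fun h => ⟨hB ha, h⟩⟩
  have hN' : pat c i H' N = E := hN
  rw [← h1, hN', ← hEF, mem_inter]
  exact ⟨fun h => ⟨h, ha⟩, fun h => h.1⟩

end Pool.Agent.H21.TX
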