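import Pool.Agent.H21.TX.Prob
import Pool.Agent.H21.TX.Aver
import Pool.Agent.H21.TX.Hyp
import Pool.Agent.H21.TX.Paj

/-!
[H21 TX ASM]  Assembly without numerical constants.

Proof.  `N₀` from `nstar c H`; `T, μ, i` from `prob H hadm hk r c N₀`.  Let `k = |H|`, `θ = thet k`,
`Y = k θ`, `x0 = (1/10^10)/2 * Y`, `x1 = 64 * 10^23 * Y`, `W N = pat c i H N`,
`P N := x0/r ≤ |W N| ≤ x1`, `δ = 1/(2*10^23*r)`, `U = 32 (m θ)^m > 0`,
`h = (x0/(64 r m))^m * (k-m).choose (n-m)`.
* `hh`: for `P N`, `x = |W N|`: `m ≤ x0/r ≤ x` (`hx0`), `x n ≤ x1 n ≤ k m` (`hn`), `4x ≤ 4 x1 ≤ k`, so `hyp`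
gives `(k-m).choose (n-m) ≤ 64^m (k-x).choose (n-m)` and `x.choose m ≥ (x/m)^m ≥ (x0/(rm))^m`
(`choose_ge'` in `Pool/Agent/H21/MT/T3.lean` is this bound; copy it, it is private).
* `hup`: `F ⊆ W N` implies `N + a` prime for all `a ∈ F`; `F` is nonempty as `m ≥ 1`.
`aver` gives `δ h / U ≤ ∑_{H'} #𝓔(H')`, `𝓔(H') = (powersetCard m H').filter (∃ N ∈ T, W N ∩ H' = F)`.
For `H' ⊆ H`: `W N ∩ H' = pat c i H' N`; so for `E ∈ 𝓔(H')` the set `{N | pat c i H' N = E}` is infinite
by `nstar` (`N ∈ T` has `N > N₀`).  `pajor` and `shat_of`: `#𝓔(H') ≤ #{B ∈ powersetCard m H' | Shat c i B}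
+ ∑_{j<m} C(n,j)`, and by `small_sum` the last sum is `≤ (4m/n) C(n,m)`.
DOUBLE COUNTING: `∑_{H' ∈ powersetCard n H} #{B ∈ powersetCard m H' | Shat} =
S * (k-m).choose (n-m)` with `S = #{B ∈ powersetCard m H | Shat}` (every `B` lies in
`(k-m).choose (n-m)` sets `H'`: `H' ↦ H' \ B`).  And `C(k,n) C(n,m) = C(k,m) C(k-m,n-m)` (`Nat.choose_mul`).
So `S C(k-m,n-m) ≥ δ h/U - C(k,n) (4m/n) C(n,m)`; divide by `C(k-m,n-m) > 0`.
Finally `x0/θ = k/(2*10^10)`, so `(x0/(64 r m))^m/(m θ)^m = (k/(128*10^10 * r * m^2))^m`.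
-/

namespace Pool.Agent.H21.TX

open Finset

private theorem choose_ge (m : ℕ) : ∀ n : ℕ, m + 1 ≤ n →
    ((n : ℝ) / ((m + 1 : ℕ) : ℝ)) ^ (m + 1) ≤ (n.choose (m + 1) : ℝ) := by
  induction m with
  | zero =>
    intro n hn
    simp
  | succ m ih =>
    intro n hn
    obtain ⟨n', rfl⟩ : ∃ n', n = n' + 1 := ⟨n - 1, by omega⟩
    have h1 := ih n' (by omega)
    have h2 : ((n' + 1 : ℕ) : ℝ) * (n'.choose (m + 1) : ℝ) =
        (((n' + 1).choose (m + 1 + 1) : ℕ) : ℝ) * ((m + 1 + 1 : ℕ) : ℝ) := by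
      exact_mod_cast Nat.add_one_mul_choose_eq n' (m + 1)
    have h3 : (((n' + 1).choose (m + 1 + 1) : ℕ) : ℝ) =
        ((n' + 1 : ℕ) : ℝ) / ((m + 1 + 1 : ℕ) : ℝ) * (n'.choose (m + 1) : ℝ) := by
      rw [div_mul_eq_mul_div, h2, mul_div_assoc, div_self (by positivity), mul_one]
    rw [h3, pow_succ, mul_comm]
    refine mul_le_mul_of_nonneg_left ?_ (by positivity)
    refine le_trans (pow_le_pow_left₀ (by positivity) ?_ (m + 1)) h1
    rw [div_le_div_iff₀ (by positivity) (by positivity)]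
    have h4 : ((m + 1 : ℕ) : ℝ) ≤ (n' : ℝ) := by exact_mod_cast (by omega : m + 1 ≤ n')
    push_cast at h4 ⊢
    nlinarith

private theorem choose_ge' (m n : ℕ) (x : ℝ) (hm : 1 ≤ m) (hx : (m : ℝ) ≤ x) (hn : x ≤ n) :
    (x / m) ^ m ≤ (n.choose m : ℝ) := by
  obtain ⟨m', rfl⟩ : ∃ m', m = m' + 1 := ⟨m - 1, by omega⟩
  have hx0 : 0 ≤ x := le_trans (Nat.cast_nonneg _) hx
  have h1 : m' + 1 ≤ n := by exact_mod_cast hx.trans hn
  refine le_trans (pow_le_pow_left₀ (by positivity) ?_ _) (choose_ge m' n h1)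
  exact div_le_div_of_nonneg_right hn (by positivity)

open Classical in
/-- double counting of pairs `B ⊆ H'` -/
theorem double_count (H : Finset ℕ) (m n : ℕ) (hmn : m ≤ n) (p : Finset ℕ → Prop) :
    ∑ H' ∈ powersetCard n H, (((powersetCard m H').filter p).card : ℝ) =
      (((powersetCard m H).filter p).card : ℝ) * ((H.card - m).choose (n - m) : ℝ) := by
  have h1 : ∀ H' ∈ powersetCard n H, (((powersetCard m H').filter p).card : ℝ) =
      ∑ B ∈ (powersetCard m H).filter p, if B ⊆ H' then (1 : ℝ) else 0 := by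
    intro H' hH'
    rw [mem_powersetCard] at hH'
    rw [Finset.sum_ite, Finset.sum_const_zero, add_zero, Finset.sum_const, nsmul_eq_mul, mul_one]
    congr 2
    ext B
    simp only [mem_filter, mem_powersetCard]
    constructor
    · rintro ⟨⟨a1, a2⟩, a3⟩
      exact ⟨⟨⟨a1.trans hH'.1, a2⟩, a3⟩, a1⟩
    · rintro ⟨⟨⟨_, a2⟩, a3⟩, a1⟩
      exact ⟨⟨a1, a2⟩, a3⟩
  rw [Finset.sum_congr rfl h1, Finset.sum_comm]
  have h2 : ∀ B ∈ (powersetCard m H).filter p,
      (∑ H' ∈ powersetCard n H, if B ⊆ H' then (1 : ℝ) else 0) =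
        ((H.card - m).choose (n - m) : ℝ) := by
    intro B hB
    rw [mem_filter, mem_powersetCard] at hB
    rw [Finset.sum_ite, Finset.sum_const_zero, add_zero, Finset.sum_const, nsmul_eq_mul, mul_one]
    have h3 := card_filter_powersetCard_subset B H n hB.1.1 (by rw [hB.1.2]; exact hmn)
    rw [hB.1.2] at h3
    rw [← h3]
  rw [Finset.sum_congr rfl h2, Finset.sum_const, nsmul_eq_mul]

open Classical in
theorem asm (H : Finset ℕ) (hadm : ∀ p : ℕ, p.Prime → ∃ a : ℕ, ∀ h ∈ H, ¬ p ∣ a + h)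
    (r : ℕ) (c : ℕ → Fin r) (m n : ℕ) (hm : 1 ≤ m)
    (hk : 20 ≤ Nat.log 2 H.card)
    (hx0 : (m : ℝ) ≤ (1 / 10 ^ 10) / 2 * (H.card * thet H.card) / r)
    (hx1 : 4 * (64 * 10 ^ 23 * (H.card * thet H.card)) ≤ (H.card : ℝ))
    (hn : 64 * 10 ^ 23 * (H.card * thet H.card) * (n : ℝ) ≤ (H.card : ℝ) * m)
    (h3 : 3 * m ≤ n) (h2 : 2 * n ≤ H.card) :
    ∃ i : Fin r, 1 / (64 * 10 ^ 23 * (r : ℝ)) *
        ((H.card : ℝ) / (128 * 10 ^ 10 * r * (m : ℝ) ^ 2)) ^ m -
        (H.card.choose m : ℝ) * (4 * m / n) ≤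
      (((powersetCard m H).filter (fun B => Shat c i B)).card : ℝ) := by
  obtain ⟨N₀, hN₀⟩ := nstar c H
  obtain ⟨T, μ, hT, hμ0, _, ⟨i, hi⟩, hsieve⟩ := prob H hadm hk r c N₀
  refine ⟨i, ?_⟩
  have hmn : m ≤ n := by omega
  have hr : 0 < r := by
    have := (c 0).isLt
    omega
  have hr0 : (0 : ℝ) < r := by exact_mod_cast hr
  have hm0 : (0 : ℝ) < m := by exact_mod_cast hm
  have hn0 : (0 : ℝ) < n := by exact_mod_cast (by omega : 0 < n)
  set k := H.card with hkdef
  have hk0 : 0 < k := by omega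
  have hk0' : (0 : ℝ) < k := by exact_mod_cast hk0
  have hθ : 0 < thet k := by
    unfold thet
    positivity
  set θ := thet k with hθdef
  set x0 : ℝ := (1 / 10 ^ 10) / 2 * (k * θ) with hx0def
  set x1 : ℝ := 64 * 10 ^ 23 * (k * θ) with hx1def
  have hx0pos : 0 < x0 := by positivity
  set δ : ℝ := 1 / (2 * 10 ^ 23 * (r : ℝ)) with hδdef
  set U : ℝ := 32 * ((m : ℝ) * θ) ^ m with hUdef
  have hU : 0 < U := by positivity
  set Cc : ℝ := ((k - m).choose (n - m) : ℝ) with hCc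
  have hCc0 : 0 < Cc := by
    rw [hCc]
    exact_mod_cast Nat.choose_pos (by omega)
  set q : ℝ := (x0 / (64 * r * m)) ^ m with hqdef
  have hq0 : 0 ≤ q := by positivity
  -- the averaging lemma
  have hav := aver H T μ hμ0 (fun N => pat c i H N) (fun N => pat_subset c i H N) m n hmn δ U
    (q * Cc) hU (by positivity)
    (fun N => x0 / r ≤ ((pat c i H N).card : ℝ) ∧ ((pat c i H N).card : ℝ) ≤ x1)
    (by convert hi) ?_ ?_
  · -- upper bound of the right hand side
    have hbound : ∀ H' ∈ powersetCard n H,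
        (((powersetCard m H').filter (fun F => ∃ N ∈ T, pat c i H N ∩ H' = F)).card : ℝ) ≤
          (((powersetCard m H').filter (fun B => Shat c i B)).card : ℝ) +
            4 * m / n * (n.choose m : ℝ) := by
      intro H' hH'
      rw [mem_powersetCard] at hH'
      set E := (powersetCard m H').filter (fun F => ∃ N ∈ T, pat c i H N ∩ H' = F) with hE
      have hpat : ∀ N, pat c i H N ∩ H' = pat c i H' N := by
        intro N
        ext a
        simp only [pat, mem_inter, mem_filter]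
        constructor
        · rintro ⟨⟨_, a2⟩, a3⟩
          exact ⟨a3, a2⟩
        · rintro ⟨a3, a2⟩
          exact ⟨⟨hH'.1 a3, a2⟩, a3⟩
      have hEinf : ∀ F ∈ E, {N : ℕ | pat c i H' N = F}.Infinite := by
        intro F hF
        rw [hE, mem_filter] at hF
        obtain ⟨_, N, hN, hNF⟩ := hF
        rw [hpat] at hNF
        rw [← hNF]
        exact hN₀ i H' hH'.1 N (hT N hN)
      have hpj := pajor H' E m (fun F hF => by
        rw [hE, mem_filter, mem_powersetCard] at hF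
        exact hF.1)
      have hsub : ((powersetCard m H').filter (fun B => ∀ F ⊆ B, ∃ F' ∈ E, F' ∩ B = F)).card ≤
          ((powersetCard m H').filter (fun B => Shat c i B)).card := by
        apply card_le_card
        intro B hB
        rw [mem_filter] at hB ⊢
        exact ⟨hB.1, shat_of c i H' B (mem_powersetCard.1 hB.1).1 E hEinf hB.2⟩
      have hss := small_sum n m h3
      rw [hH'.2] at hpj
      have e1 : (E.card : ℝ) ≤ (((powersetCard m H').filter (fun B => Shat c i B)).card : ℝ) +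
          ((∑ j ∈ range m, n.choose j : ℕ) : ℝ) := by
        exact_mod_cast hpj.trans (Nat.add_le_add_right hsub _)
      have e2 : (n : ℝ) * ((∑ j ∈ range m, n.choose j : ℕ) : ℝ) ≤ 4 * m * (n.choose m : ℝ) := by
        exact_mod_cast hss
      have e3 : ((∑ j ∈ range m, n.choose j : ℕ) : ℝ) ≤ 4 * m / n * (n.choose m : ℝ) := by
        rw [div_mul_eq_mul_div, le_div_iff₀ hn0]
        linarith
      linarith
    have hsum := hav.trans (Finset.sum_le_sum hbound)
    rw [Finset.sum_add_distrib, double_count H m n hmn, Finset.sum_const, card_powersetCard,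
      nsmul_eq_mul, ← hkdef, ← hCc] at hsum
    have hmul : (k.choose n : ℝ) * (n.choose m : ℝ) = (k.choose m : ℝ) * Cc := by
      rw [hCc]
      exact_mod_cast Nat.choose_mul hmn
    set S : ℝ := (((powersetCard m H).filter (fun B => Shat c i B)).card : ℝ) with hS
    have h4 : (k.choose n : ℝ) * (4 * m / n * (n.choose m : ℝ)) =
        4 * m / n * ((k.choose m : ℝ) * Cc) := by
      rw [← hmul]
      ring
    rw [h4] at hsum
    have h5 : δ * q / U * Cc ≤ (S + 4 * m / n * (k.choose m : ℝ)) * Cc := by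
      calc δ * q / U * Cc = δ * (q * Cc) / U := by ring
        _ ≤ S * Cc + 4 * m / n * ((k.choose m : ℝ) * Cc) := hsum
        _ = (S + 4 * m / n * (k.choose m : ℝ)) * Cc := by ring
    have h6 := le_of_mul_le_mul_right h5 hCc0
    have h7 : δ * q / U = 1 / (64 * 10 ^ 23 * (r : ℝ)) *
        ((k : ℝ) / (128 * 10 ^ 10 * r * (m : ℝ) ^ 2)) ^ m := by
      have h8 : (k : ℝ) / (128 * 10 ^ 10 * r * (m : ℝ) ^ 2) = x0 / (64 * r * m) / (m * θ) := by
        rw [hx0def]
        field_simp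
        ring
      rw [h8, div_pow, ← hqdef, hδdef, hUdef]
      field_simp
      ring
    rw [h7] at h6
    linarith
  · -- `hh`
    intro N hN hP
    obtain ⟨hP1, hP2⟩ := hP
    show q * Cc ≤ (((pat c i H N).card).choose m : ℝ) * ((k - (pat c i H N).card).choose (n - m) : ℝ)
    set x := (pat c i H N).card with hx
    have hmx : (m : ℝ) ≤ x := hx0.trans hP1
    have hmx' : m ≤ x := by exact_mod_cast hmx
    have hxn : x * n ≤ k * m := by
      have : (x : ℝ) * n ≤ k * m := by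
        calc (x : ℝ) * n ≤ x1 * n := by gcongr
          _ ≤ k * m := hn
      exact_mod_cast this
    have h4x : 4 * x ≤ k := by
      have : (4 : ℝ) * x ≤ k := by
        calc (4 : ℝ) * x ≤ 4 * x1 := by gcongr
          _ ≤ k := hx1
      exact_mod_cast this
    have hh := hyp k n m x hm hmx' hmn hxn h2 h4x
    have hh' : Cc ≤ 64 ^ m * ((k - x).choose (n - m) : ℝ) := by
      rw [hCc]
      exact_mod_cast hh
    have hc := choose_ge' m x (x0 / r) hm hx0 hP1
    have hq : q = (x0 / r / m) ^ m / 64 ^ m := by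
      rw [hqdef, ← div_pow]
      congr 1
      field_simp
    have h64 : (0 : ℝ) < 64 ^ m := by positivity
    calc q * Cc ≤ q * (64 ^ m * ((k - x).choose (n - m) : ℝ)) := by gcongr
      _ = (x0 / r / m) ^ m * ((k - x).choose (n - m) : ℝ) := by
          rw [hq]
          field_simp
      _ ≤ (x.choose m : ℝ) * ((k - x).choose (n - m) : ℝ) := by gcongr
  · -- `hup`
    intro F hF hFm
    have h4 := hsieve F hF (card_pos.1 (by omega))
    rw [hFm] at h4
    refine le_trans ?_ h4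
    refine Finset.sum_le_sum_of_subset_of_nonneg ?_ (fun N _ _ => hμ0 N)
    intro N hN
    rw [mem_filter] at hN ⊢
    refine ⟨hN.1, fun a ha => ?_⟩
    have := hN.2 ha
    simp only [pat, mem_filter] at this
    exact this.2.1

end Pool.Agent.H21.TX
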