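import Pool.Agent.H21.TX.Defs
import Pool.Agent.H21.MT.Sieve
import Pool.Agent.H21.MT.Pz

/-!
[H21 TX PROB]  The probabilistic input: two-sided bounds for the number of primes of one colour.

Proof (compare `Pool/Agent/H21/MT/T3.lean`, which has the same set-up and is proved).  Let
`k = |H|`, `ℓ = Nat.log 2 k ≥ 20`, `τ = 1/(10 k (ℓ+1))`, `θ = thet k = τ (ℓ+2)^2`,
`I = {h // h ∈ H}`.  `2^ℓ τ ≤ k τ ≤ 1/10`, `∑ (ℓ+1) τ = 1/10`, so `sieve` gives `T, μ`.
(1) `pz` with `S = univ` (`Y = k θ ≥ (ℓ+1)/10 ≥ 1`, pairs: `sieve` with `S = {i,j}` gives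
`32 * (2θ)^2 = 128 θ^2`): the mass of `{X ≥ (1/10^10)/2 * (k θ)}` is at least `10^{-23}`, where
`X N = #{a ∈ H | (N + a).Prime}`.
(2) `∑ μ X = ∑_a μ(N + a prime) ≤ 32 k θ` (`sieve` with singletons), so by Markov the mass of
`{X > 64 * 10^23 * (k θ)}` is at most `1/(2 * 10^23)`.
(3) Hence `{(1/10^10)/2 * (k θ) ≤ X ≤ 64 * 10^23 * (k θ)}` has mass `≥ 1/(2 * 10^23)`.
(4) `X N = ∑_i |pat c i H N|` (every `N + a` has exactly one colour), so for each such `N` some colour
`i` has `|pat c i H N| ≥ X N / r` and of course `|pat c i H N| ≤ X N`; the sum over `i` of the masses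
is `≥ 1/(2 * 10^23)`, so one colour has mass `≥ 1/(2 * 10^23 * r)`.
(5) last statement: `sieve` with `S = F` (as a finset of the subtype): `32 * ∏_{j ∈ S} (|S| θ) =
32 (|F| θ)^{|F|}`.
-/

namespace Pool.Agent.H21.TX

open Finset


private theorem sum_biUnion_le_aux {r : ℕ} {μ : ℕ → ℝ} (hμ : ∀ N, 0 ≤ μ N)
    (t : Fin r → Finset ℕ) :
    ∑ N ∈ (univ : Finset (Fin r)).biUnion t, μ N ≤ ∑ i : Fin r, ∑ N ∈ t i, μ N := by
  classical
  have key : ∀ s : Finset (Fin r), ∑ N ∈ s.biUnion t, μ N ≤ ∑ i ∈ s, ∑ N ∈ t i, μ N := by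
    intro s
    induction s using Finset.induction_on with
    | empty => simp
    | insert a s ha ih =>
      rw [Finset.biUnion_insert, Finset.sum_insert ha]
      have h3 := Finset.sum_union_inter (s₁ := t a) (s₂ := s.biUnion t) (f := μ)
      have h4 : 0 ≤ ∑ N ∈ t a ∩ s.biUnion t, μ N := Finset.sum_nonneg fun N _ => hμ N
      linarith
  exact key univ

open Classical in
theorem prob (H : Finset ℕ) (hadm : ∀ p : ℕ, p.Prime → ∃ a : ℕ, ∀ h ∈ H, ¬ p ∣ a + h)
    (hk : 20 ≤ Nat.log 2 H.card) (r : ℕ) (c : ℕ → Fin r) (N0 : ℕ) :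
    ∃ (T : Finset ℕ) (μ : ℕ → ℝ), (∀ N ∈ T, N0 < N) ∧ (∀ N, 0 ≤ μ N) ∧ ∑ N ∈ T, μ N = 1 ∧
      (∃ i : Fin r, 1 / (2 * 10 ^ 23 * (r : ℝ)) ≤ ∑ N ∈ T.filter (fun N =>
        (1 / 10 ^ 10) / 2 * (H.card * thet H.card) / r ≤ ((pat c i H N).card : ℝ) ∧
        ((pat c i H N).card : ℝ) ≤ 64 * 10 ^ 23 * (H.card * thet H.card)), μ N) ∧
      (∀ F ⊆ H, F.Nonempty → ∑ N ∈ T.filter (fun N => ∀ a ∈ F, (N + a).Prime), μ N ≤
        32 * ((F.card : ℝ) * thet H.card) ^ F.card) := by
  set k : ℕ := H.card with hkdef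
  set l : ℕ := Nat.log 2 k with hl
  have hkpos : 0 < k := by
    rcases Nat.eq_zero_or_pos k with h | h
    · exfalso
      rw [hl, h] at hk
      simp at hk
    · exact h
  have hkr : (0 : ℝ) < (k : ℝ) := by exact_mod_cast hkpos
  have hl1 : 2 ^ l ≤ k := Nat.pow_log_le_self 2 hkpos.ne'
  have hl20 : (20 : ℝ) ≤ (l : ℝ) := by exact_mod_cast hk
  set τ : ℝ := 1 / (10 * k * (l + 1)) with hτ
  have hτ0 : 0 < τ := by rw [hτ]; positivity
  set θ : ℝ := thet k with hθdef
  have hθ : θ = τ * (l + 2) ^ 2 := by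
    rw [hθdef, hτ, thet, ← hl]
    ring
  have hθ0 : 0 < θ := by rw [hθ]; positivity
  have hkθ : (k : ℝ) * θ = (l + 2) ^ 2 / (10 * (l + 1)) := by
    rw [hθ, hτ]
    field_simp
  have hkθ2 : 1 ≤ (k : ℝ) * θ := by
    rw [hkθ, le_div_iff₀ (by positivity)]
    nlinarith
  have hr : 0 < r := lt_of_le_of_lt (Nat.zero_le _) (c 0).2
  have hrr : (0 : ℝ) < (r : ℝ) := by exact_mod_cast hr
  have hne : Nonempty {x // x ∈ H} := by
    have : H.Nonempty := Finset.card_pos.1 hkpos
    obtain ⟨x, hx⟩ := this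
    exact ⟨⟨x, hx⟩⟩
  have hcardI : Fintype.card {x // x ∈ H} = k := by rw [Fintype.card_coe]
  obtain ⟨T, μ, hT, hμ0, hμ1, hlow, hup⟩ := Pool.Agent.H21.MT.sieve (I := {x // x ∈ H})
    (fun i => (i : ℕ)) Subtype.val_injective (by
      intro p hp
      obtain ⟨a, ha⟩ := hadm p hp
      exact ⟨a, fun i => ha i i.2⟩) (fun _ => τ) (fun _ => l) (fun _ => hτ0) (by
      intro i
      have h1 : (2 : ℝ) ^ l ≤ k := by exact_mod_cast hl1
      calc (2 : ℝ) ^ l * τ ≤ k * τ := mul_le_mul_of_nonneg_right h1 hτ0.le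
        _ = 1 / (10 * (l + 1)) := by rw [hτ]; field_simp
        _ ≤ 1 / 2 := one_div_le_one_div_of_le (by norm_num) (by linarith)) (by
      rw [Finset.sum_const, Finset.card_univ, hcardI, nsmul_eq_mul, hτ]
      refine le_of_eq ?_
      field_simp) N0
  refine ⟨T, μ, hT, hμ0, hμ1, ?_, ?_⟩
  · -- Paley-Zygmund
    have hpz := Pool.Agent.H21.MT.pz T μ hμ0 hμ1 (univ : Finset {x // x ∈ H})
      (fun i N => (N + (i : ℕ)).Prime) θ hθ0.le
      (by
        rw [Finset.card_univ, hcardI]
        exact hkθ2) (by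
        intro i _
        have h1 := hlow i
        rwa [← hθ] at h1) (by
        intro i _ j _ hij
        have h1 := hup {i, j} (by simp)
        rw [Finset.prod_const, Finset.card_pair hij] at h1
        have e1 : T.filter (fun N => ∀ x ∈ ({i, j} : Finset {x // x ∈ H}), (N + (x : ℕ)).Prime) =
            T.filter (fun N => (N + (i : ℕ)).Prime ∧ (N + (j : ℕ)).Prime) := by
          apply Finset.filter_congr
          intro N _
          simp
        rw [e1] at h1
        refine h1.trans (le_of_eq ?_)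
        push_cast
        rw [hθ]
        ring)
    rw [Finset.card_univ, hcardI] at hpz
    set x0 : ℝ := (1 / 10 ^ 10) / 2 * (k * θ) with hx0
    set x1 : ℝ := 64 * 10 ^ 23 * (k * θ) with hx1
    have hx1pos : 0 < x1 := by rw [hx1]; positivity
    -- the number of primes
    have hcard : ∀ N : ℕ, ((univ : Finset {x // x ∈ H}).filter
        (fun i : {x // x ∈ H} => (N + (i : ℕ)).Prime)).card =
        (H.filter (fun a => (N + a).Prime)).card := by
      intro N
      rw [← Finset.card_map (Function.Embedding.subtype (fun x => x ∈ H))]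
      congr 1
      ext a
      simp only [Finset.mem_map, Finset.mem_filter, Finset.mem_univ, true_and,
        Function.Embedding.subtype_apply, Subtype.exists, exists_and_left, exists_prop,
        exists_eq_right_right]
      constructor
      · rintro ⟨h1, h2⟩
        exact ⟨h2, h1⟩
      · rintro ⟨h1, h2⟩
        exact ⟨h2, h1⟩
    set X : ℕ → ℝ := fun N => ((H.filter (fun a => (N + a).Prime)).card : ℝ) with hX
    have hX0 : ∀ N, 0 ≤ X N := fun N => Nat.cast_nonneg _
    have hpz' : (1 / 10 ^ 23 : ℝ) ≤ ∑ N ∈ T.filter (fun N => x0 ≤ X N), μ N := by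
      refine hpz.trans (le_of_eq ?_)
      refine Finset.sum_congr ?_ fun _ _ => rfl
      apply Finset.filter_congr
      intro N _
      simp only [hX]
      rw [hcard N]
    -- Markov
    have hmom : ∑ N ∈ T, μ N * X N ≤ 32 * (k * θ) := by
      have e1 : ∀ N, X N = ∑ i : {x // x ∈ H}, (if (N + (i : ℕ)).Prime then (1 : ℝ) else 0) := by
        intro N
        simp only [hX]
        rw [← hcard N, Finset.card_filter]
        push_cast
        rfl
      have e2 : ∑ N ∈ T, μ N * X N =
          ∑ i : {x // x ∈ H}, ∑ N ∈ T.filter (fun N => (N + (i : ℕ)).Prime), μ N := by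
        simp_rw [e1, Finset.mul_sum]
        rw [Finset.sum_comm]
        refine Finset.sum_congr rfl fun i _ => ?_
        rw [Finset.sum_filter]
        refine Finset.sum_congr rfl fun N _ => ?_
        split_ifs <;> simp
      rw [e2]
      have e3 : ∀ i ∈ (univ : Finset {x // x ∈ H}),
          ∑ N ∈ T.filter (fun N => (N + (i : ℕ)).Prime), μ N ≤ 32 * θ := by
        intro i _
        have h1 := hup {i} (by simp)
        rw [Finset.prod_singleton, Finset.card_singleton] at h1
        have e1 : T.filter (fun N => ∀ x ∈ ({i} : Finset {x // x ∈ H}), (N + (x : ℕ)).Prime) =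
            T.filter (fun N => (N + (i : ℕ)).Prime) := by
          apply Finset.filter_congr
          intro N _
          simp
        rw [e1] at h1
        refine h1.trans (le_of_eq ?_)
        push_cast
        rw [hθ]
        ring
      refine (Finset.sum_le_sum e3).trans (le_of_eq ?_)
      rw [Finset.sum_const, Finset.card_univ, hcardI, nsmul_eq_mul]
      ring
    have hmk : ∑ N ∈ T.filter (fun N => x1 < X N), μ N ≤ 1 / (2 * 10 ^ 23) := by
      have h1 : x1 * ∑ N ∈ T.filter (fun N => x1 < X N), μ N ≤ 32 * (k * θ) := by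
        refine le_trans ?_ hmom
        rw [Finset.mul_sum]
        calc ∑ N ∈ T.filter (fun N => x1 < X N), x1 * μ N
            ≤ ∑ N ∈ T.filter (fun N => x1 < X N), μ N * X N := by
              refine Finset.sum_le_sum fun N hN => ?_
              rw [Finset.mem_filter] at hN
              rw [mul_comm]
              exact mul_le_mul_of_nonneg_left hN.2.le (hμ0 N)
          _ ≤ ∑ N ∈ T, μ N * X N := by
              refine Finset.sum_le_sum_of_subset_of_nonneg (Finset.filter_subset _ _) ?_
              intro N _ _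
              exact mul_nonneg (hμ0 N) (hX0 N)
      have hkθ0 : 0 < (k : ℝ) * θ := by positivity
      rw [hx1] at h1
      have h2 : (k * θ) * (64 * 10 ^ 23 * ∑ N ∈ T.filter (fun N => x1 < X N), μ N) ≤
          (k * θ) * 32 := by
        rw [hx1]
        linarith [h1]
      have h3 := le_of_mul_le_mul_left h2 hkθ0
      rw [le_div_iff₀ (by positivity)]
      linarith
    -- the middle part
    have hmid : 1 / (2 * 10 ^ 23) ≤ ∑ N ∈ T.filter (fun N => x0 ≤ X N ∧ X N ≤ x1), μ N := by
      have h1 : T.filter (fun N => x0 ≤ X N) ⊆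
          T.filter (fun N => x0 ≤ X N ∧ X N ≤ x1) ∪ T.filter (fun N => x1 < X N) := by
        intro N hN
        rw [Finset.mem_filter] at hN
        rw [Finset.mem_union, Finset.mem_filter, Finset.mem_filter]
        rcases le_or_gt (X N) x1 with h | h
        · exact Or.inl ⟨hN.1, hN.2, h⟩
        · exact Or.inr ⟨hN.1, h⟩
      have h2 : ∑ N ∈ T.filter (fun N => x0 ≤ X N), μ N ≤
          ∑ N ∈ T.filter (fun N => x0 ≤ X N ∧ X N ≤ x1), μ N +
            ∑ N ∈ T.filter (fun N => x1 < X N), μ N := by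
        refine (Finset.sum_le_sum_of_subset_of_nonneg h1 fun N _ _ => hμ0 N).trans ?_
        have h3 := Finset.sum_union_inter (s₁ := T.filter (fun N => x0 ≤ X N ∧ X N ≤ x1))
          (s₂ := T.filter (fun N => x1 < X N)) (f := μ)
        have h4 : 0 ≤ ∑ N ∈ T.filter (fun N => x0 ≤ X N ∧ X N ≤ x1) ∩
            T.filter (fun N => x1 < X N), μ N := Finset.sum_nonneg fun N _ => hμ0 N
        linarith
      have h3 : (1 / 10 ^ 23 : ℝ) = 1 / (2 * 10 ^ 23) + 1 / (2 * 10 ^ 23) := by norm_num
      linarith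
    -- colours
    have hpat : ∀ N, X N = ∑ i : Fin r, ((pat c i H N).card : ℝ) := by
      intro N
      have h1 := Finset.card_eq_sum_card_fiberwise (f := fun a => c (N + a))
        (s := H.filter (fun a => (N + a).Prime)) (t := (univ : Finset (Fin r)))
        (fun _ _ => Finset.mem_coe.2 (Finset.mem_univ _))
      simp only [hX]
      rw [h1]
      push_cast
      refine Finset.sum_congr rfl fun i _ => ?_
      congr 2
      rw [pat, Finset.filter_filter]
    by_contra hno
    push Not at hno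
    have h1 : T.filter (fun N => x0 ≤ X N ∧ X N ≤ x1) ⊆
        (univ : Finset (Fin r)).biUnion (fun i => T.filter (fun N =>
          x0 / r ≤ ((pat c i H N).card : ℝ) ∧ ((pat c i H N).card : ℝ) ≤ x1)) := by
      intro N hN
      rw [Finset.mem_filter] at hN
      obtain ⟨hNT, hN0, hN1⟩ := hN
      have h2 : ∃ i : Fin r, x0 / r ≤ ((pat c i H N).card : ℝ) := by
        by_contra hcon
        push Not at hcon
        have hne' : (univ : Finset (Fin r)).Nonempty := ⟨⟨0, hr⟩, Finset.mem_univ _⟩
        have h3 : ∑ i : Fin r, ((pat c i H N).card : ℝ) < ∑ _i : Fin r, x0 / r :=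
          Finset.sum_lt_sum_of_nonempty hne' fun i _ => hcon i
        rw [← hpat, Finset.sum_const, Finset.card_univ, Fintype.card_fin, nsmul_eq_mul,
          mul_div_cancel₀ _ hrr.ne'] at h3
        linarith
      obtain ⟨i, hi⟩ := h2
      rw [Finset.mem_biUnion]
      refine ⟨i, Finset.mem_univ _, ?_⟩
      rw [Finset.mem_filter]
      refine ⟨hNT, hi, ?_⟩
      have h3 : ((pat c i H N).card : ℝ) ≤ X N := by
        rw [hpat N]
        exact Finset.single_le_sum (f := fun i : Fin r => ((pat c i H N).card : ℝ))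
          (fun i _ => Nat.cast_nonneg _) (Finset.mem_univ i)
      linarith
    have h2 : ∑ N ∈ T.filter (fun N => x0 ≤ X N ∧ X N ≤ x1), μ N ≤
        ∑ i : Fin r, ∑ N ∈ T.filter (fun N =>
          x0 / r ≤ ((pat c i H N).card : ℝ) ∧ ((pat c i H N).card : ℝ) ≤ x1), μ N := by
      refine (Finset.sum_le_sum_of_subset_of_nonneg h1 fun N _ _ => hμ0 N).trans ?_
      exact sum_biUnion_le_aux hμ0 _
    have hne' : (univ : Finset (Fin r)).Nonempty := ⟨⟨0, hr⟩, Finset.mem_univ _⟩
    have h3 : ∑ i : Fin r, ∑ N ∈ T.filter (fun N =>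
          x0 / r ≤ ((pat c i H N).card : ℝ) ∧ ((pat c i H N).card : ℝ) ≤ x1), μ N <
        ∑ _i : Fin r, 1 / (2 * 10 ^ 23 * (r : ℝ)) :=
      Finset.sum_lt_sum_of_nonempty hne' fun i _ => hno i
    rw [Finset.sum_const, Finset.card_univ, Fintype.card_fin, nsmul_eq_mul] at h3
    have h4 : (r : ℝ) * (1 / (2 * 10 ^ 23 * (r : ℝ))) = 1 / (2 * 10 ^ 23) := by
      field_simp
    rw [h4] at h3
    linarith
  · intro F hF hFne
    set S : Finset {x // x ∈ H} := (univ : Finset {x // x ∈ H}).filter (fun i => (i : ℕ) ∈ F)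
      with hS
    have hScard : S.card = F.card := by
      rw [← Finset.card_map (Function.Embedding.subtype (fun x => x ∈ H))]
      congr 1
      ext a
      simp only [hS, Finset.mem_map, Finset.mem_filter, Finset.mem_univ, true_and,
        Function.Embedding.subtype_apply, Subtype.exists, exists_and_left, exists_prop,
        exists_eq_right_right]
      constructor
      · rintro ⟨h1, _⟩
        exact h1
      · intro h1
        exact ⟨h1, hF h1⟩
    have hSne : S.Nonempty := by
      rw [← Finset.card_pos, hScard]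
      exact Finset.card_pos.2 hFne
    have h1 := hup S hSne
    rw [Finset.prod_const, hScard] at h1
    have e1 : T.filter (fun N => ∀ x ∈ S, (N + (x : ℕ)).Prime) =
        T.filter (fun N => ∀ a ∈ F, (N + a).Prime) := by
      apply Finset.filter_congr
      intro N _
      constructor
      · intro h a ha
        exact h ⟨a, hF ha⟩ (by
          rw [hS, Finset.mem_filter]
          exact ⟨Finset.mem_univ _, ha⟩)
      · intro h x hx
        rw [hS, Finset.mem_filter] at hx
        exact h x hx.2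
    rw [e1, ← hθ] at h1
    exact h1

end Pool.Agent.H21.TX
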